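import Pool.Agent.R321.QB5

/-!
# The normal law for sums of consecutive gaps holds along almost every run, unconditionally

No hypothesis is assumed.  It is known that the sums of `r` consecutive normalised gaps are
asymptotically normal, with mean `r` and variance `(log r) / π²`, when the position `n` runs over
all of `[1, N]`.  Here `n` runs only over a run `n, n + 1, …, n + M - 1` of `M ≥ η r` consecutive
indices, `η > 0` fixed: in almost all of these runs the empirical distribution of the `M` sums is
normal up to `ε`.  So one typical run already shows the whole normal law, although all its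
`M` sums have most of their gaps in common when `η` is small.

Idea of the proof.  Let `X(t)` be the normalised deviation of the number of zeros in the interval
`(t, t + r]` (in units of the mean spacing).  The mean square over `t` of
`1 / K * ∑ exp (i ξ X(t + k η r / K)) - exp (- ξ² / 2)` only involves the laws of `X(t)` and of
the differences `X(t) - X(t')`.  For `η r / K ≤ t - t' ≤ η r` these differences are asymptotically
normal with variance `2`: they are given by a prime polynomial whose variance follows from that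
of `X` by `4 sin² a sin² b = 2 sin² a + 2 sin² b - sin² (a + b) - sin² (a - b)`.  So the mean square
is `O(1 / K)`.  Fourier inversion and a local counting argument give the result.
-/

namespace Pool.Agent.Results.MP_21f43f_nt.NormalLawAlmostAllRuns

/-- multiplicity of `s` as a zero of the Riemann zeta function (order of vanishing at `s`) -/
noncomputable def zmult (s : ℂ) : ℕ := analyticOrderNatAt riemannZeta s

/-- the number of nontrivial zeros of `ζ` with ordinate in `(0, t]`, with multiplicity -/
noncomputable def NZ (t : ℝ) : ℕ :=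
  ∑ᶠ s ∈ {s : ℂ | riemannZeta s = 0 ∧ 0 < s.re ∧ s.re < 1 ∧ 0 < s.im ∧ s.im ≤ t}, zmult s

/-- for `n ≥ 1`: the `n`-th positive ordinate `γ n` of a nontrivial zero of `ζ`, the ordinates being
listed in nondecreasing order and repeated according to multiplicity -/
noncomputable def γ (n : ℕ) : ℝ := sInf {t : ℝ | n ≤ NZ t}

/-- the normalised gaps `δ_n = (γ_{n+1} log γ_{n+1} - γ_n log γ_n) / 2π` -/
noncomputable def δ (n : ℕ) : ℝ :=
  (γ (n + 1) * Real.log (γ (n + 1)) - γ n * Real.log (γ n)) / (2 * Real.pi)

/-- the distribution function of the standard normal law -/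
noncomputable def Φ (x : ℝ) : ℝ := (ProbabilityTheory.gaussianReal 0 1 (Set.Iic x)).toReal

/-- the empirical distribution function, along the run `n, n + 1, …, n + M - 1`, of the normalised
sums `(δ_k + ... + δ_{k+r-1} - r) / (√(log r) / π)` of `r` consecutive gaps -/
noncomputable def F (r n M : ℕ) (x : ℝ) : ℝ :=
  ({j : ℕ | j < M ∧ ∑ i ∈ Finset.range r, δ (n + j + i) ≤
    r + x * (Real.sqrt (Real.log r) / Real.pi)}.ncard : ℝ) / M

/-- **The normal law for sums of consecutive gaps along almost all runs (no hypothesis).**  For all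
`ε, η > 0` there is `r₀` such that for all `r ≥ r₀`, all `N ≥ 1` with `r log r ≤ log N` and all `M`
with `η r ≤ M ≤ N`, for all but at most `ε N` of the `n ≤ N` the empirical distribution function
along the run of length `M` starting at `n` differs from `Φ` by at most `ε` everywhere. -/
theorem result (ε η : ℝ) (hε : 0 < ε) (hη : 0 < η) : ∃ r₀ : ℕ, ∀ r : ℕ, r₀ ≤ r → ∀ N : ℕ, 1 ≤ N →
    r * Real.log r ≤ Real.log N → ∀ M : ℕ, η * r ≤ M → M ≤ N →
    ({n : ℕ | 1 ≤ n ∧ n ≤ N ∧ ∃ x : ℝ, ε < |F r n M x - Φ x|}.ncard : ℝ) ≤ ε * N := by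
  classical
  obtain ⟨e, he⟩ : ∃ e : ℝ, e = min ε 1 := ⟨_, rfl⟩
  have he0 : 0 < e := by rw [he]; exact lt_min hε one_pos
  obtain ⟨h, hh⟩ : ∃ h : ℝ, h = min η 1 := ⟨_, rfl⟩
  have hh0 : 0 < h := by rw [hh]; exact lt_min hη one_pos
  have heε : e ≤ ε := by rw [he]; exact min_le_left _ _
  have hhη : h ≤ η := by rw [hh]; exact min_le_left _ _
  obtain ⟨r₀, hr₀⟩ := (Pool.Agent.R321.QA.quenched e h he0 (by rw [he]; exact min_le_right _ _) hh0
    (by rw [hh]; exact min_le_right _ _)).exists_forall_of_atTop
  refine ⟨max r₀ 1, fun r hr N hN hrN M hM1 hM2 => ?_⟩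
  have hr1 : (1 : ℝ) ≤ r := by exact_mod_cast (le_max_right _ _).trans hr
  have hM0 : (0 : ℝ) < M := lt_of_lt_of_le (by positivity) hM1
  have hq := hr₀ r ((le_max_left _ _).trans hr) N hN hrN M
    (le_trans (mul_le_mul_of_nonneg_right hhη (by linarith)) hM1) hM2
  -- the empirical distribution function
  have hF : ∀ n x, F r n M x * M = Pool.Agent.R321.QA.ct
      (fun k => Pool.Agent.Y743.CL.Ev x r k) n M := by
    intro n x
    unfold F
    rw [div_mul_cancel₀ _ hM0.ne']
    have e1 : {j : ℕ | j < M ∧ ∑ i ∈ Finset.range r, δ (n + j + i) ≤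
        r + x * (Real.sqrt (Real.log r) / Real.pi)} =
        ((Finset.range M).filter (fun j => Pool.Agent.Y743.CL.Ev x r (n + j)) : Finset ℕ) := by
      ext j
      simp only [Set.mem_setOf_eq, Finset.coe_filter, Finset.mem_range]
      have e2 : ∑ i ∈ Finset.range r, δ (n + j + i) =
          γ (n + j + r) * Real.log (γ (n + j + r)) / (2 * Real.pi) -
          γ (n + j) * Real.log (γ (n + j)) / (2 * Real.pi) := by
        have e3 := Finset.sum_range_sub
          (fun i => γ (n + j + i) * Real.log (γ (n + j + i)) / (2 * Real.pi)) r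
        rw [Nat.add_zero] at e3
        rw [← e3]
        refine Finset.sum_congr rfl fun i _ => ?_
        unfold δ
        rw [sub_div]
        rfl
      rw [e2]
      rfl
    rw [e1, Set.ncard_coe_finset, Pool.Agent.R321.QA.ct_sum, Finset.card_filter]
    push_cast
    rfl
  have hsub : {n : ℕ | 1 ≤ n ∧ n ≤ N ∧ ∃ x : ℝ, ε < |F r n M x - Φ x|} ⊆
      ((Finset.Ico 1 (1 + N)).filter (fun n => ∃ x : ℝ, e * M <
        |Pool.Agent.R321.QA.ct (fun k => Pool.Agent.Y743.CL.Ev x r k) n M -
          Pool.Agent.Y743.CL.Ph x * M|) : Finset ℕ) := by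
    rintro n ⟨h1, h2, x, hx⟩
    rw [Finset.coe_filter, Set.mem_setOf_eq, Finset.mem_Ico]
    refine ⟨⟨h1, by omega⟩, x, ?_⟩
    rw [← hF n x]
    have e4 : F r n M x * M - Pool.Agent.Y743.CL.Ph x * M = (F r n M x - Φ x) * M := by
      rw [sub_mul]
      rfl
    rw [e4, abs_mul, abs_of_pos hM0]
    exact mul_lt_mul_of_pos_right (lt_of_le_of_lt heε hx) hM0
  have hcard := Set.ncard_le_ncard hsub (Finset.finite_toSet _)
  rw [Set.ncard_coe_finset] at hcard
  rw [Pool.Agent.R321.QA.ct_eq] at hq
  have hN0 : (0 : ℝ) ≤ N := Nat.cast_nonneg _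
  calc ({n : ℕ | 1 ≤ n ∧ n ≤ N ∧ ∃ x : ℝ, ε < |F r n M x - Φ x|}.ncard : ℝ) ≤ _ := by
        exact_mod_cast hcard
    _ ≤ e * N := hq
    _ ≤ ε * N := mul_le_mul_of_nonneg_right heε hN0

end Pool.Agent.Results.MP_21f43f_nt.NormalLawAlmostAllRuns
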