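import Pool.Agent.R321.FB6
import Pool.Agent.R321.FB7

namespace Pool.Agent.Results.MP_21f43f_nt.SmallGapsAlmostAllRuns

/-- multiplicity of `s` as a zero of the Riemann zeta function (order of vanishing at `s`) -/
noncomputable def zmult (s : ℂ) : ℕ := analyticOrderNatAt riemannZeta s

/-- the number of nontrivial zeros of `ζ` with ordinate in `(0, t]`, with multiplicity -/
noncomputable def NZ (t : ℝ) : ℕ :=
  ∑ᶠ s ∈ {s : ℂ | riemannZeta s = 0 ∧ 0 < s.re ∧ s.re < 1 ∧ 0 < s.im ∧ s.im ≤ t}, zmult s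

/-- for `n ≥ 1`: the `n`-th positive ordinate `γ n` of a nontrivial zero of `ζ`, the ordinates being
listed in nondecreasing order and repeated according to multiplicity -/
noncomputable def γ (n : ℕ) : ℝ := sInf {t : ℝ | n ≤ NZ t}

/-- the normalised gaps `δ_n = (γ_{n+1} log γ_{n+1} - γ_n log γ_n) / 2π` -/
noncomputable def δ (n : ℕ) : ℝ :=
  (γ (n + 1) * Real.log (γ (n + 1)) - γ n * Real.log (γ n)) / (2 * Real.pi)

/-- On the Riemann hypothesis: for every `ε > 0` there is a fixed `m` such that for all large `N`,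
all but at most `ε N` of the runs `δ_n, …, δ_{n+m-1}`, `n ≤ N`, of `m` consecutive normalised gaps
contain a gap smaller than `0.6686`. -/
theorem result (RH : RiemannHypothesis) :
    ∀ ε : ℝ, 0 < ε → ∃ m N₀ : ℕ, ∀ N : ℕ, N₀ ≤ N →
      ({n : ℕ | 1 ≤ n ∧ n ≤ N ∧ ∀ i < m, 6686 / 10000 ≤ δ (n + i)}.ncard : ℝ) ≤ ε * N := by
  obtain ⟨B, P, q, hB, h1, h2, h3, h4⟩ := Pool.Agent.R321.FA.pars (3314 / 10000) (6686 / 10000)
    (by norm_num) Pool.Agent.R321.FA.num_small
  exact Pool.Agent.R321.FA.runsS RH P (2 * B) B h1 le_rfl 1 one_pos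
    (Pool.Agent.R321.FA.FB B) q
    (fun n hn => by unfold Pool.Agent.R321.FA.FB; rw [if_neg (by omega)])
    h2 (6686 / 10000) (by norm_num) h3 (by rw [mul_one]; linarith)

end Pool.Agent.Results.MP_21f43f_nt.SmallGapsAlmostAllRuns
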